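import Pool.Agent.CWA.Good

/-!
# CWA: faithfulness from one surviving minor
-/

set_option autoImplicit false

namespace Pool.Agent.CWA

open MvPolynomial Pool.Agent.ORB Pool.Agent.ORA Pool.Agent.Helper5.D4

variable {K : Type*} [Field K] [CharZero K] {n : ℕ} {σ : Type*}

theorem faith_one (p : Fin n → Polynomial K) (hp : LinearIndependent K p)
    (γ : Fin n → MvPolynomial σ K) {t : ℕ} (Ψ : Fin t → MvPolynomial (Fin n) K) (J : Fin t → Fin n)
    (hJ : aeval γ (Matrix.of fun i j => pderiv (J j) (Ψ i)).det ≠ 0) (g : MvPolynomial (Fin n) K)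
    (hg : IsAlgebraic (Algebra.adjoin K (Set.range Ψ)) g) (hg0 : g ≠ 0) : PhiP p γ t g ≠ 0 := by
  classical
  have h2 := algInd_PhiP p hp γ Ψ J hJ
  let T' : Option (Fin t) → MvPolynomial (Fin n) K := fun o => o.elim g Ψ
  have himg : T' '' (Set.range (some : Fin t → Option (Fin t))) = Set.range Ψ := by
    rw [← Set.range_comp]
    rfl
  refine faithful (k := K) (PhiP p γ t) T' (Set.range (some : Fin t → Option (Fin t))) ?_ ?_ g
    (Algebra.subset_adjoin ⟨none, rfl⟩) hg0
  · have hex : ∀ x : (Set.range (some : Fin t → Option (Fin t))),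
        ∃ j : Fin t, (x : Option (Fin t)) = some j := by
      rintro ⟨_, i, rfl⟩
      exact ⟨i, rfl⟩
    choose f hf using hex
    have hfi : Function.Injective f := by
      intro x y hxy
      apply Subtype.ext
      rw [hf x, hf y, hxy]
    have h3 := h2.comp f hfi
    have h4 : (fun x : (Set.range (some : Fin t → Option (Fin t))) => PhiP p γ t (T' x)) =
        (fun i : Fin t => PhiP p γ t (Ψ i)) ∘ f := by
      funext x
      show PhiP p γ t (T' x) = PhiP p γ t (Ψ (f x))
      rw [hf x]
      rfl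
    show AlgebraicIndependent K _
    have h5 : AlgebraicIndependent K
        (fun x : (Set.range (some : Fin t → Option (Fin t))) => PhiP p γ t (T' x)) := by
      rw [h4]
      exact h3
    exact h5
  · intro o
    rw [himg]
    rcases o with _ | i
    · exact hg
    · exact isAlgebraic_algebraMap
        (⟨Ψ i, Algebra.subset_adjoin ⟨i, rfl⟩⟩ : Algebra.adjoin K (Set.range Ψ))

private theorem faithO_alg {k R : Type*} [Field k] [CommRing R] [IsDomain R] [Algebra k R]
    {N : Type*} (T : N → R) (f : R →ₐ[k] R) (hf : Function.Injective f) (g : R)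
    (hg : IsAlgebraic (Algebra.adjoin k (Set.range T)) g) :
    IsAlgebraic (Algebra.adjoin k (Set.range fun i => f (T i))) (f g) := by
  obtain ⟨p, hp0, hp⟩ := hg
  have hle : ∀ x : Algebra.adjoin k (Set.range T),
      f x ∈ Algebra.adjoin k (Set.range fun i => f (T i)) := by
    intro x
    have h1 : (Algebra.adjoin k (Set.range T)) ≤
        (Algebra.adjoin k (Set.range fun i => f (T i))).comap f := by
      refine Algebra.adjoin_le ?_
      rintro _ ⟨i, rfl⟩
      exact Algebra.subset_adjoin ⟨i, rfl⟩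
    exact h1 x.2
  let ι : Algebra.adjoin k (Set.range T) →+* Algebra.adjoin k (Set.range fun i => f (T i)) :=
    ((f : R →+* R).comp (algebraMap (Algebra.adjoin k (Set.range T)) R)).codRestrict
      (Algebra.adjoin k (Set.range fun i => f (T i))) hle
  have hι : Function.Injective ι := by
    intro x y hxy
    have h1 := congrArg
      (fun z : Algebra.adjoin k (Set.range fun i => f (T i)) => (z : R)) hxy
    exact Subtype.ext (hf h1)
  refine ⟨p.map ι, ?_, ?_⟩
  · intro h0
    exact hp0 (Polynomial.map_injective ι hι (by rw [h0, Polynomial.map_zero]))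
  · have h2 := congrArg f hp
    rw [map_zero, Polynomial.aeval_def] at h2
    have h3 : f (Polynomial.eval₂ (algebraMap (Algebra.adjoin k (Set.range T)) R) g p) =
        Polynomial.eval₂ ((f : R →+* R).comp (algebraMap (Algebra.adjoin k (Set.range T)) R)) (f g) p :=
      Polynomial.hom_eval₂ p _ (f : R →+* R) g
    rw [h3] at h2
    rw [Polynomial.aeval_def, Polynomial.eval₂_map, ← h2]
    rfl

/-- one surviving minor is enough, after a polynomial automorphism -/
theorem Psi_faith_one {φ : Fin n → MvPolynomial (Fin n) K} {μ : ℕ} (hp : Good φ μ) {c t : ℕ}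
    (Ψ : Fin t → MvPolynomial (Fin n) K) (J : Fin t → Fin n)
    (hJ : Psi φ μ c (Matrix.of fun i j => pderiv (J j) (Ψ i)).det ≠ 0) (g : MvPolynomial (Fin n) K)
    (hg : IsAlgebraic (Algebra.adjoin K (Set.range Ψ)) g) (hg0 : g ≠ 0) :
    Psi φ μ (c + t) g ≠ 0 := by
  obtain ⟨⟨c0, hc0, hφ⟩, hcv⟩ := hp
  have hinj := aeval_injective φ c0 hc0 hφ
  rw [Psi_apply]
  apply PhiP_PhiP
  obtain ⟨J', hJ'⟩ := exists_minor_pull φ c0 hc0 hφ
    (fun v => PhiP (cvx K n μ) (fun _ => (0 : MvPolynomial (Fin 0) K)) c (X v)) Ψ J (by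
      rw [aeval_PhiP_X]
      exact hJ)
  refine faith_one (cvx K n μ) hcv _ (fun i => aeval φ (Ψ i)) J' hJ' (aeval φ g)
    (faithO_alg Ψ (aeval φ) hinj g hg) ?_
  intro h
  apply hg0
  apply hinj
  rw [h, map_zero]

end Pool.Agent.CWA
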