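import Pool.Agent.CWA.Cov
import Pool.Agent.CWA.FaithO
import Pool.Agent.CWR.CovH

/-!
# CWA: nonzero polynomials depending on a covered family are hit
-/

set_option autoImplicit false

namespace Pool.Agent.CWA

open MvPolynomial Pool.Agent.ORB Pool.Agent.ORA Pool.Agent.CWR

variable {K : Type*} [Field K] [CharZero K] {n w : ℕ} {φ : Fin n → MvPolynomial (Fin n) K}
  {μ : ℕ}

theorem hit_of_cov (hp : Good φ μ) {c s : ℕ} {𝒯 : Set (MvPolynomial (Fin n) K)}
    {V : Set (Fin n)} (h : Cov φ μ c s 𝒯 V) {F : MvPolynomial (Fin n) K} (hF : F ≠ 0)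
    (hg : gr F ∈ Submodule.span (QQ K n) (gr '' 𝒯)) : Psi φ μ (c + s) F ≠ 0 := by
  obtain ⟨t, hts, Ψ, I, -, -, hdet, hspan⟩ := h
  have hdet0 : (Matrix.of fun i j => pderiv (I j) (Ψ i)).det ≠ 0 := by
    intro h0
    exact hdet (by rw [h0, map_zero])
  have hg' : gr F ∈ Submodule.span (QQ K n) (Set.range fun j => gr (Ψ j)) := by
    refine (Submodule.span_le.2 ?_) hg
    rintro _ ⟨x, hx, rfl⟩
    exact hspan x hx
  exact Psi_mono φ μ (Nat.add_le_add_left hts c)
    (Psi_faith_one hp Ψ I hdet F (isAlgebraic_of_gr Ψ I hdet0 hg') hF)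

end Pool.Agent.CWA
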