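import Pool.Agent.CWR.HH
import Pool.Agent.CWA.CovU
import Pool.Agent.CWA.CovH

/-!
# CWA: the induction statements
-/

set_option autoImplicit false

namespace Pool.Agent.CWA

open MvPolynomial Pool.Agent.ORB Pool.Agent.ORA Pool.Agent.CWR

variable {K : Type*} [Field K] {n w : ℕ} {σ : Type*}

/-- The entries of `M_l` and their derivatives by the variables in `I` are covered by at most
`q * max 1 |I|` polynomials. -/
def LCov (blk : Fin n → ℕ) (M : ℕ → Matrix (Fin w) (Fin w) (MvPolynomial (Fin n) K))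
    (φ : Fin n → MvPolynomial (Fin n) K) (μ : ℕ) (c q : ℕ) : Prop :=
  ∀ l, ∀ I : Finset (Fin n), (∀ v ∈ I, blk v = l) → I.card ≤ w ^ 2 →
    Cov φ μ c (max 1 I.card * q) (ents (M l) ∪ dents I (M l)) (lay blk l (l + 1))

/- PLAN. `Cov.mono`. -/
theorem LCov.mono [Infinite K] {blk : Fin n → ℕ}
    {M : ℕ → Matrix (Fin w) (Fin w) (MvPolynomial (Fin n) K)}
    {φ : Fin n → MvPolynomial (Fin n) K} {μ : ℕ} {c c' q : ℕ}
    (h : LCov blk M φ μ c q) (hc : c ≤ c') : LCov blk M φ μ c' q :=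
  fun l I h1 h2 => (h l I h1 h2).mono hc le_rfl subset_rfl subset_rfl

/-- All products over intervals which are empty or of rank at least `ρ` are covered. -/
def HH (blk : Fin n → ℕ) (M : ℕ → Matrix (Fin w) (Fin w) (MvPolynomial (Fin n) K))
    (φ : Fin n → MvPolynomial (Fin n) K) (μ : ℕ) (ρ c s : ℕ) : Prop :=
  ∀ a b, a ≤ b → (a = b ∨ ρ ≤ rk (iprod M a b)) → Cov φ μ c s (ents (iprod M a b)) (lay blk a b)

/-- Chains with at least two blocks and interior rank `r` have a minor of size `r` which is hit. -/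
def BB (blk : Fin n → ℕ) (M : ℕ → Matrix (Fin w) (Fin w) (MvPolynomial (Fin n) K))
    (φ : Fin n → MvPolynomial (Fin n) K) (μ : ℕ) (ρ C r : ℕ) : Prop :=
  ∀ (c : ℕ → ℕ) (N : ℕ), IsChain M ρ c N → 2 ≤ N →
    Module.finrank (QQ K n) (dsp M (c 0) (c N) (lay blk (c 1) (c (N - 1)))) = r →
    ∃ (Rw : Fin r → Fin w × Fin w) (I : Fin r → Fin n), (∀ j, I j ∈ lay blk (c 1) (c (N - 1))) ∧
      Psi φ μ C (Matrix.of fun i j =>
        pderiv (I j) (iprod M (c 0) (c N) (Rw i).1 (Rw i).2)).det ≠ 0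

/-- Products over chains with interior rank at most `r` are covered. -/
def CC (blk : Fin n → ℕ) (M : ℕ → Matrix (Fin w) (Fin w) (MvPolynomial (Fin n) K))
    (φ : Fin n → MvPolynomial (Fin n) K) (μ : ℕ) (ρ C r s' : ℕ) : Prop :=
  ∀ (c : ℕ → ℕ) (N : ℕ), IsChain M ρ c N → 0 < N →
    Module.finrank (QQ K n) (dsp M (c 0) (c N) (lay blk (c 1) (c (N - 1)))) ≤ r →
    Cov φ μ C s' (ents (iprod M (c 0) (c N))) (lay blk (c 0) (c N))

end Pool.Agent.CWA
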