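import Pool.Agent.CWA.Cov
import Pool.Agent.ORB.H1

/-!
# CWA: coverings of finite families
-/

set_option autoImplicit false

namespace Pool.Agent.CWA

open MvPolynomial Pool.Agent.ORB Pool.Agent.ORA Pool.Agent.CWR

variable {K : Type*} [Field K] {n w : ℕ} {σ : Type*} {φ : Fin n → MvPolynomial (Fin n) K}
  {μ : ℕ}

theorem Cov.of_H1 {c N : ℕ} {𝓓 : Set (MvPolynomial (Fin n) K)} (h : H1P φ μ c 𝓓 N)
    (𝒯 : Finset (MvPolynomial (Fin n) K)) (hT : ∀ x ∈ 𝒯, x ∈ 𝓓) (hN : 𝒯.card ≤ N)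
    {V : Set (Fin n)} (hV : ∀ x ∈ 𝒯, ∀ v ∉ V, pderiv v x = 0) :
    Cov φ μ c 𝒯.card (𝒯 : Set (MvPolynomial (Fin n) K)) V := by
  classical
  obtain ⟨κ, a, ha, hs, hi⟩ := exists_linearIndependent' (QQ K n)
    (fun x : 𝒯 => gr (x : MvPolynomial (Fin n) K))
  have hfin : Finite κ := Finite.of_injective a ha
  have := Fintype.ofFinite κ
  have hcard : Fintype.card κ ≤ 𝒯.card := by
    have h1 := Fintype.card_le_of_injective a ha
    simpa using h1
  set e : Fin (Fintype.card κ) ≃ κ := (Fintype.equivFin κ).symm with he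
  set Ψ : Fin (Fintype.card κ) → MvPolynomial (Fin n) K := fun j => (a (e j) : MvPolynomial (Fin n) K)
    with hΨ
  have hΨT : ∀ j, Ψ j ∈ 𝒯 := fun j => (a (e j)).2
  set A : Matrix (Fin (Fintype.card κ)) (Fin n) (QQ K n) := Matrix.of fun j v => gr (Ψ j) v with hA
  have hrow : LinearIndependent (QQ K n) A.row := by
    have h1 : A.row = ((fun x : 𝒯 => gr (x : MvPolynomial (Fin n) K)) ∘ a) ∘ e := by
      funext j
      rfl
    rw [h1]
    exact hi.comp _ e.injective
  obtain ⟨J, hJ⟩ := Pool.Agent.Helper5.D4.exists_minor_of_rows A hrow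
  have hmap : algebraMap (MvPolynomial (Fin n) K) (QQ K n)
      (Matrix.of fun i j => pderiv (J j) (Ψ i)).det = (A.submatrix id J).det := by
    rw [RingHom.map_det]
    rfl
  have hdet : (Matrix.of fun i j => pderiv (J j) (Ψ i)).det ≠ 0 := by
    intro h0
    rw [h0, map_zero] at hmap
    exact hJ hmap.symm
  refine ⟨Fintype.card κ, hcard, Ψ, J, ?_, ?_, ?_, ?_⟩
  · intro j
    by_contra hj
    apply hdet
    refine Matrix.det_eq_zero_of_column_eq_zero j fun i => ?_
    exact hV (Ψ i) (hΨT i) (J j) hj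
  · intro j v hv
    exact hV (Ψ j) (hΨT j) v hv
  · exact h _ (hcard.trans hN) Ψ (fun i => hT _ (hΨT i)) J hdet
  · intro τ hτ
    have h1 : gr τ ∈ Submodule.span (QQ K n)
        (Set.range fun x : 𝒯 => gr (x : MvPolynomial (Fin n) K)) :=
      Submodule.subset_span ⟨⟨τ, hτ⟩, rfl⟩
    rw [← hs] at h1
    have h2 : Set.range ((fun x : 𝒯 => gr (x : MvPolynomial (Fin n) K)) ∘ a) =
        Set.range fun j => gr (Ψ j) := by
      ext x
      constructor
      · rintro ⟨k, rfl⟩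
        refine ⟨e.symm k, ?_⟩
        simp [hΨ]
      · rintro ⟨j, rfl⟩
        exact ⟨e j, rfl⟩
    rw [h2] at h1
    exact h1

end Pool.Agent.CWA
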