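import Pool.Agent.CWA.RkHit

/-!
# CWA: from the truncated chain to the chain
-/

set_option autoImplicit false

namespace Pool.Agent.CWA

open MvPolynomial Pool.Agent.ORB Pool.Agent.ORA Pool.Agent.CWR

variable {K : Type*} [Field K] [CharZero K] {n w : ℕ} {σ : Type*} {φ : Fin n → MvPolynomial (Fin n) K}
  {μ : ℕ} {blk : Fin n → ℕ}
  {M : ℕ → Matrix (Fin w) (Fin w) (MvPolynomial (Fin n) K)}

private theorem stepb_map_det {K : Type*} [Field K] {n w r : ℕ} {L : Type*} [Field L]
    (φ : MvPolynomial (Fin n) K →+* L) (X : Matrix (Fin w) (Fin w) (MvPolynomial (Fin n) K))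
    (f : Fin r → Fin n) (Rw : Fin r → Fin w × Fin w) :
    φ (Matrix.of fun i j => pderiv (f j) (X (Rw i).1 (Rw i).2)).det =
      (Matrix.of fun i j => ((dm (f j) X).map φ) (Rw i).1 (Rw i).2).det := by
  rw [RingHom.map_det]
  rfl

/- PLAN. Over the field `L` of `ev φ μ C`: the matrices `g' j = (dm (f j) T').map ev`,
`T' = iprod M (d 0) (d (m + 2))`, are independent (`linearIndependent_of_minor`, `RingHom.map_det`,
`ev_ne_zero`); `(dm (f j) T).map ev = g' j * B`, `B = (iprod M (d (m + 2)) (d N)).map ev`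
(`dm_split`), and `g' j = Z j * P`, `P = (iprod M (d (m + 1)) (d (m + 2))).map ev`; `inj_right` with
`rank (P * B) = ρ = rank P` (`rank_chain`) shows that the `(dm (f j) T).map ev` are independent (a
relation gives `(∑ c_j Z j) * P * B = 0`); `exists_minor`. The case `m + 2 = N` is trivial. -/
theorem stepB (hM : Lay blk M) {q c s ρ : ℕ}
    (hq : LCov blk M φ μ c q) (hp : Good φ μ)
    (h : HH blk M φ μ (ρ + 1) c s) {d : ℕ → ℕ} {N : ℕ} (hd : IsChain M ρ d N) {C : ℕ}
    (hC : c + 2 * (s + q) ≤ C) {m r : ℕ} (hm : m + 2 ≤ N) (f : Fin r → Fin n)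
    (hf : ∀ j, f j ∈ lay blk (d 0) (d (m + 1))) (Rw : Fin r → Fin w × Fin w)
    (hdet : Psi φ μ C (Matrix.of fun i j =>
      pderiv (f j) (iprod M (d 0) (d (m + 2)) (Rw i).1 (Rw i).2)).det ≠ 0) :
    ∃ Rw' : Fin r → Fin w × Fin w, Psi φ μ C (Matrix.of fun i j =>
      pderiv (f j) (iprod M (d 0) (d N) (Rw' i).1 (Rw' i).2)).det ≠ 0 := by
  set φ := ev φ μ C with hφ
  have h01 : d 0 ≤ d (m + 1) := hd.mono (Nat.zero_le _) (by omega)
  have h12 : d (m + 1) ≤ d (m + 2) := hd.mono (by omega) hm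
  have hg : LinearIndependent (FractionRing (MvPolynomial (Fin 0 ⊕ (Fin C ⊕ Fin C)) K))
      (fun j => (dm (f j) (iprod M (d 0) (d (m + 2)))).map φ) := by
    refine linearIndependent_of_minor (Rw := Rw) ?_
    rw [← stepb_map_det]
    exact ev_ne_zero.2 hdet
  rcases Nat.eq_or_lt_of_le hm with hN | hN
  · refine ⟨Rw, ?_⟩
    rw [← hN]
    exact hdet
  · have h2N : d (m + 2) ≤ d N := hd.mono hm le_rfl
    have hs1 : ∀ j, dm (f j) (iprod M (d 0) (d (m + 2))) =
        dm (f j) (iprod M (d 0) (d (m + 1))) * iprod M (d (m + 1)) (d (m + 2)) := by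
      intro j
      rw [dm_split hM (le_refl (d 0)) (hf j).1 (hf j).2 h12, iprod_self, one_mul]
    have hs2 : ∀ j, dm (f j) (iprod M (d 0) (d N)) =
        dm (f j) (iprod M (d 0) (d (m + 1))) * iprod M (d (m + 1)) (d (m + 2)) *
          iprod M (d (m + 2)) (d N) := by
      intro j
      rw [dm_split hM (le_refl (d 0)) (hf j).1 (hf j).2 (h12.trans h2N), iprod_self, one_mul,
        mul_assoc, iprod_mul M h12 h2N]
    set P := (iprod M (d (m + 1)) (d (m + 2))).map φ with hP
    set B := (iprod M (d (m + 2)) (d N)).map φ with hB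
    have hPB : P * B = (iprod M (d (m + 1)) (d N)).map φ := by
      rw [hP, hB, ← Matrix.map_mul, iprod_mul M h12 h2N]
    have hrk : (P * B).rank = P.rank := by
      rw [hPB, rank_chain hM hq hp h hd hC (k := m + 1) (m := N) (by omega) le_rfl, hP,
        rank_chain hM hq hp h hd hC (k := m + 1) (m := m + 2) (by omega) hm]
    have hind : LinearIndependent (FractionRing (MvPolynomial (Fin 0 ⊕ (Fin C ⊕ Fin C)) K))
        (fun j => (dm (f j) (iprod M (d 0) (d N))).map φ) := by
      rw [Fintype.linearIndependent_iff] at hg ⊢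
      intro a ha
      refine hg a ?_
      have h1 : (∑ j, a j • (dm (f j) (iprod M (d 0) (d (m + 1)))).map φ) * P * B = 0 := by
        rw [← ha, Finset.sum_mul, Finset.sum_mul]
        refine Finset.sum_congr rfl fun j _ => ?_
        rw [hs2, Matrix.map_mul, Matrix.map_mul, Matrix.smul_mul, Matrix.smul_mul]
      have h2 := inj_right hrk h1
      rw [← h2, Finset.sum_mul]
      refine Finset.sum_congr rfl fun j _ => ?_
      rw [hs1, Matrix.map_mul, Matrix.smul_mul]
    obtain ⟨Rw', hRw'⟩ := exists_minor hind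
    refine ⟨Rw', ?_⟩
    rw [← stepb_map_det] at hRw'
    exact ev_ne_zero.1 hRw'

end Pool.Agent.CWA
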