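import Pool.Agent.CWA.Loc
import Pool.Agent.CWR.StepCA

/-!
# CWA: from minors to coverings
-/

set_option autoImplicit false

namespace Pool.Agent.CWA

open MvPolynomial Pool.Agent.ORB Pool.Agent.ORA Pool.Agent.CWR

variable {K : Type*} [Field K] [CharZero K] {n w : ℕ} {σ : Type*} {φ : Fin n → MvPolynomial (Fin n) K}
  {μ : ℕ} {blk : Fin n → ℕ}
  {M : ℕ → Matrix (Fin w) (Fin w) (MvPolynomial (Fin n) K)}

/-- Every block of a chain is covered. -/
private theorem stepc_block (hM : Lay blk M) {q c s ρ C : ℕ} (hq : LCov blk M φ μ c q)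
    (h : HH blk M φ μ (ρ + 1) c s) (hcC : c ≤ C) {d : ℕ → ℕ} {N : ℕ} (hd : IsChain M ρ d N)
    {l : ℕ} (hl : l < N) :
    Cov φ μ C (s + q) (ents (iprod M (d l) (d (l + 1)))) (lay blk (d l) (d (l + 1))) := by
  have h1 := loc hM hq h (hd.lt l hl) (hd.min l hl) ∅ (by simp) (by simp)
  exact h1.mono hcC (by simp) Set.subset_union_left subset_rfl

/-- Products over chains are covered by the first block, the last block, and the rows of a minor of
maximal size of the interior Jacobian matrix. -/
theorem stepC (hM : Lay blk M) {q c s ρ C r : ℕ}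
    (hq : LCov blk M φ μ c q)
    (h : HH blk M φ μ (ρ + 1) c s) (hcC : c ≤ C) (hB : ∀ r' ≤ r, BB blk M φ μ ρ C r') :
    CC blk M φ μ ρ C r (2 * (s + q) + r) := by
  intro d N hd hN hr
  rcases Nat.lt_or_ge N 2 with hN2 | hN2
  · obtain rfl : N = 1 := by omega
    exact (stepc_block hM hq h hcC hd (l := 0) (by omega)).mono le_rfl (by omega) subset_rfl
      subset_rfl
  · obtain ⟨Rw, I, hI, hdet⟩ := hB _ hr d N hd hN2 rfl
    have h01 : d 0 ≤ d 1 := hd.mono (by omega) (by omega)
    have h1N : d 1 ≤ d (N - 1) := hd.mono (by omega) (by omega)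
    have hNN : d (N - 1) ≤ d N := hd.mono (by omega) le_rfl
    have hA := stepc_block hM hq h hcC hd (l := 0) (by omega)
    have hD := stepc_block hM hq h hcC hd (l := N - 1) (by omega)
    rw [Nat.sub_add_cancel (by omega : 1 ≤ N)] at hD
    rw [zero_add] at hA
    have hU := hA.union hD (by
      intro v hv hv'
      have h5 := hv.1
      have h6 := hv'.2
      omega)
    have hne : (Matrix.of fun i j =>
        pderiv (I j) (iprod M (d 0) (d N) (Rw i).1 (Rw i).2)).det ≠ 0 := by
      intro h0
      exact hdet (by rw [h0, map_zero])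
    have htri := hU.tri (V' := lay blk (d 1) (d (N - 1))) (𝒯' := ents (iprod M (d 0) (d N)))
      (by
        rintro v hv (hv' | hv')
        · have h5 := hv.1
          have h6 := hv'.2
          omega
        · have h5 := hv.2
          have h6 := hv'.1
          omega)
      (fun k => iprod M (d 0) (d N) (Rw k).1 (Rw k).2) I hI
      (by
        intro j v hv hv'
        have h5 : blk v < d 0 ∨ d N ≤ blk v := by
          by_contra hcon
          push Not at hcon
          have h6 : ¬ (d 0 ≤ blk v ∧ blk v < d 1) := fun h => hv (Or.inl h)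
          have h7 : ¬ (d (N - 1) ≤ blk v ∧ blk v < d N) := fun h => hv (Or.inr h)
          have h8 : ¬ (d 1 ≤ blk v ∧ blk v < d (N - 1)) := fun h => hv' h
          omega
        have h9 := dm_iprod_eq_zero hM h5
        exact congrFun (congrFun h9 (Rw j).1) (Rw j).2)
      hdet
      (by
        rintro τ ⟨i, j, rfl⟩
        exact gr_mem_of_minor hM h01 h1N hNN rfl Rw I hI hne i j)
    refine htri.mono le_rfl (by omega) subset_rfl ?_
    rintro v ((hv | hv) | hv)
    · exact ⟨hv.1, lt_of_lt_of_le hv.2 (h1N.trans hNN)⟩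
    · exact ⟨(h01.trans h1N).trans hv.1, hv.2⟩
    · exact ⟨h01.trans hv.1, lt_of_lt_of_le hv.2 hNN⟩

end Pool.Agent.CWA
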