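import Pool.Agent.CWA.CovN
import Pool.Agent.CWR.RA
import Pool.Agent.CWA.Induct

/-!
# CWA: programs over few polynomials per layer are hit
-/

set_option autoImplicit false

namespace Pool.Agent.CWA

open MvPolynomial Pool.Agent.ORB Pool.Agent.ORA Pool.Agent.CWR

variable {K : Type*} [Field K] [CharZero K] {n w : ℕ} {σ : Type*} {φ : Fin n → MvPolynomial (Fin n) K}
  {μ : ℕ}

/- PLAN. The Leibniz rule, `Algebra.adjoin_induction`. -/
theorem pderiv_mem_adjoin' {S S' : Set (MvPolynomial (Fin n) K)} {v : Fin n} (hS : S ⊆ S')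
    (hS' : ∀ x ∈ S, pderiv v x ∈ S') {F : MvPolynomial (Fin n) K} (hF : F ∈ Algebra.adjoin K S) :
    pderiv v F ∈ Algebra.adjoin K S' := by
  induction hF using Algebra.adjoin_induction with
  | mem x hx => exact Algebra.subset_adjoin (hS' x hx)
  | algebraMap r =>
    rw [Derivation.map_algebraMap]
    exact zero_mem _
  | add x y hx hy ihx ihy =>
    rw [map_add]
    exact add_mem ihx ihy
  | mul x y hx hy ihx ihy =>
    rw [Derivation.leibniz, smul_eq_mul, smul_eq_mul]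
    exact add_mem (mul_mem (Algebra.adjoin_mono hS hx) ihy) (mul_mem (Algebra.adjoin_mono hS hy) ihx)

private theorem rhit_comm (u v : Fin n) (x : MvPolynomial (Fin n) K) :
    pderiv v (pderiv u x) = pderiv u (pderiv v x) := by
  have h : ⁅(pderiv v : Derivation K (MvPolynomial (Fin n) K) (MvPolynomial (Fin n) K)),
      (pderiv u : Derivation K (MvPolynomial (Fin n) K) (MvPolynomial (Fin n) K))⁆ = 0 := by
    apply MvPolynomial.derivation_ext
    intro i
    rw [Derivation.commutator_apply, pderiv_X, pderiv_X, Derivation.zero_apply]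
    have h1 : ∀ (a b : Fin n), (Pi.single a (1 : MvPolynomial (Fin n) K) : Fin n → _) b = 0 ∨
        (Pi.single a (1 : MvPolynomial (Fin n) K) : Fin n → _) b = 1 := by
      intro a b
      by_cases hab : b = a
      · subst hab
        exact Or.inr (Pi.single_eq_same _ _)
      · exact Or.inl (Pi.single_eq_of_ne hab _)
    rcases h1 u i with h2 | h2 <;> rcases h1 v i with h3 | h3 <;> rw [h2, h3] <;> simp
  have h2 := DFunLike.congr_fun h x
  rw [Derivation.commutator_apply, Derivation.zero_apply, sub_eq_zero] at h2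
  exact h2

/- PLAN. `𝒯 = P l ∪ I.biUnion fun v => (P l).image (pderiv v)`, of cardinality at most
`(I.card + 1) * N`, `≤ max 1 I.card * (2 * N)`, and `≤ (w ^ 2 + 1) * N`; its elements are in
`Dc 𝓑 (m + 2)` and do not depend on the variables outside the layer (`pderiv` commutes:
`MvPolynomial.pderiv_pderiv_comm` or similar); `Cov.of_H1`, `Cov.of_adjoin`, `pderiv_mem_adjoin'`. -/
theorem lcov_of_H1 {blk : Fin n → ℕ} {c m N : ℕ} {𝓑 : Set (MvPolynomial (Fin n) K)}
    (P : ℕ → Finset (MvPolynomial (Fin n) K)) (hN : ∀ l, (P l).card ≤ N)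
    (hB : ∀ l, ∀ x ∈ P l, x ∈ Dc 𝓑 (m + 1))
    (hblk : ∀ l, ∀ x ∈ P l, ∀ v, blk v ≠ l → pderiv v x = 0)
    (h : H1P φ μ c (Dc 𝓑 (m + 2)) ((w ^ 2 + 1) * N))
    (M : ℕ → Matrix (Fin w) (Fin w) (MvPolynomial (Fin n) K))
    (hM : ∀ l i j, M l i j ∈ Algebra.adjoin K (P l : Set (MvPolynomial (Fin n) K))) :
    LCov blk M φ μ c (2 * N) := by
  classical
  intro l I hI hIw
  obtain ⟨𝒯, h𝒯⟩ : ∃ 𝒯 : Finset (MvPolynomial (Fin n) K),
      𝒯 = P l ∪ I.biUnion fun v => (P l).image (pderiv v) := ⟨_, rfl⟩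
  have hmem : ∀ x ∈ 𝒯, x ∈ P l ∨ ∃ u ∈ I, ∃ y ∈ P l, pderiv u y = x := by
    intro x hx
    rw [h𝒯, Finset.mem_union, Finset.mem_biUnion] at hx
    rcases hx with hx | ⟨u, hu, hx⟩
    · exact Or.inl hx
    · obtain ⟨y, hy, rfl⟩ := Finset.mem_image.1 hx
      exact Or.inr ⟨u, hu, y, hy, rfl⟩
  have hcard : 𝒯.card ≤ (I.card + 1) * N := by
    rw [h𝒯]
    refine (Finset.card_union_le _ _).trans ?_
    have h1 : (I.biUnion fun v => (P l).image (pderiv v)).card ≤ I.card * N :=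
      Finset.card_biUnion_le_card_mul _ _ _ fun v _ => Finset.card_image_le.trans (hN l)
    have h2 := hN l
    calc _ ≤ N + I.card * N := Nat.add_le_add h2 h1
      _ = (I.card + 1) * N := by ring
  have h1 : ∀ x ∈ 𝒯, x ∈ Dc 𝓑 (m + 2) := by
    intro x hx
    rcases hmem x hx with hx | ⟨u, hu, y, hy, rfl⟩
    · obtain ⟨L, hL, b, hb, rfl⟩ := hB l x hx
      exact ⟨L, by omega, b, hb, rfl⟩
    · obtain ⟨L, hL, b, hb, rfl⟩ := hB l y hy
      exact ⟨u :: L, by rw [List.length_cons]; omega, b, hb, rfl⟩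
  have h2 : ∀ x ∈ 𝒯, ∀ v ∉ lay blk l (l + 1), pderiv v x = 0 := by
    intro x hx v hv
    have hv' : blk v ≠ l := by
      rintro rfl
      exact hv ⟨le_rfl, Nat.lt_succ_self _⟩
    rcases hmem x hx with hx | ⟨u, hu, y, hy, rfl⟩
    · exact hblk l x hx v hv'
    · rw [rhit_comm, hblk l y hy v hv', map_zero]
  have h3 := Cov.of_H1 h 𝒯 h1 (hcard.trans (Nat.mul_le_mul_right _ (Nat.succ_le_succ hIw))) h2
  have h4 : Cov φ μ c 𝒯.card (ents (M l) ∪ dents I (M l)) (lay blk l (l + 1)) := by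
    refine h3.of_adjoin ?_
    have hsub : (P l : Set (MvPolynomial (Fin n) K)) ⊆ (𝒯 : Set (MvPolynomial (Fin n) K)) := by
      intro x hx
      rw [h𝒯]
      exact Finset.mem_coe.2 (Finset.mem_union_left _ (Finset.mem_coe.1 hx))
    rintro x (⟨i, j, rfl⟩ | ⟨v, hv, i, j, rfl⟩)
    · exact Algebra.adjoin_mono hsub (hM l i j)
    · refine pderiv_mem_adjoin' hsub ?_ (hM l i j)
      intro x hx
      rw [h𝒯]
      exact Finset.mem_coe.2 (Finset.mem_union_right _ (Finset.mem_biUnion.2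
        ⟨v, hv, Finset.mem_image_of_mem _ (Finset.mem_coe.1 hx)⟩))
  refine h4.mono le_rfl (hcard.trans ?_) subset_rfl subset_rfl
  have h5 : I.card + 1 ≤ max 1 I.card * 2 := by omega
  calc (I.card + 1) * N ≤ max 1 I.card * 2 * N := Nat.mul_le_mul_right _ h5
    _ = max 1 I.card * (2 * N) := by ring

/- PLAN. `hit_ents` with `lcov_of_H1`; `Lay blk M` by `Algebra.adjoin_induction` (Leibniz);
`C (u i) * x * C (v j) = (u i * v j) • x` is in the span of the entries. -/
theorem RA_hit (hp : Good φ μ) {blk : Fin n → ℕ} {c m N L : ℕ}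
    {𝓑 : Set (MvPolynomial (Fin n) K)}
    (P : ℕ → Finset (MvPolynomial (Fin n) K)) (hN : ∀ l, (P l).card ≤ N)
    (hB : ∀ l, ∀ x ∈ P l, x ∈ Dc 𝓑 (m + 1))
    (hblk : ∀ l, ∀ x ∈ P l, ∀ v, blk v ≠ l → pderiv v x = 0)
    (h : H1P φ μ c (Dc 𝓑 (m + 2)) ((w ^ 2 + 1) * N)) {F : MvPolynomial (Fin n) K}
    (hF : RA (fun l => Algebra.adjoin K (P l : Set (MvPolynomial (Fin n) K))) L w F)
    (hF0 : F ≠ 0) : Psi φ μ (c + EE w (2 * N)) F ≠ 0 := by
  obtain ⟨M, u, v, hM, hFe⟩ := hF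
  have hLay : Lay blk M := by
    intro l x hx
    ext1 i j
    rw [dm, Matrix.map_apply, Matrix.zero_apply]
    have hm := hM l i j
    generalize M l i j = y at hm
    induction hm using Algebra.adjoin_induction with
    | mem y hy => exact hblk l y (Finset.mem_coe.1 hy) x hx
    | algebraMap r => rw [Derivation.map_algebraMap]
    | add y z hy hz ihy ihz => rw [map_add, ihy, ihz, add_zero]
    | mul y z hy hz ihy ihz => rw [Derivation.leibniz, ihy, ihz, smul_zero, smul_zero, add_zero]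
  refine hit_ents hLay (lcov_of_H1 P hN hB hblk h M hM) hp L hF0 ?_
  rw [hFe]
  refine Submodule.sum_mem _ fun i _ => Submodule.sum_mem _ fun j _ => ?_
  have h1 : C (u i) * iprod M 0 L i j * C (v j) = (u i * v j) • iprod M 0 L i j := by
    rw [smul_eq_C_mul, C_mul]
    ring
  rw [h1]
  exact Submodule.smul_mem _ _ (Submodule.subset_span ⟨i, j, rfl⟩)

end Pool.Agent.CWA
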