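import Pool.Agent.CWR.Der
import Pool.Agent.CWR.RDet
import Pool.Agent.CWA.RHit
import Pool.Agent.CWR.AbpH

/-!
# CWA: Jacobian minors of read-once programs
-/

set_option autoImplicit false

namespace Pool.Agent.CWA

open MvPolynomial Pool.Agent.ORB Pool.Agent.ORA Pool.Agent.CWR

variable {K : Type*} [Field K] {n : ℕ}

private theorem abpH_pderiv_comm (x y : Fin n) (f : MvPolynomial (Fin n) K) :
    pderiv x (pderiv y f) = pderiv y (pderiv x f) := by
  have h : ⁅(pderiv x : Derivation K (MvPolynomial (Fin n) K) (MvPolynomial (Fin n) K)),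
      (pderiv y : Derivation K (MvPolynomial (Fin n) K) (MvPolynomial (Fin n) K))⁆ =
      (0 : Derivation K (MvPolynomial (Fin n) K) (MvPolynomial (Fin n) K)) := by
    refine MvPolynomial.derivation_ext fun i => ?_
    rw [Derivation.commutator_apply, Derivation.zero_apply]
    classical
    simp only [pderiv_X]
    have h1 : ∀ (z : Fin n) (j : Fin n), pderiv z
        ((Pi.single j (1 : MvPolynomial (Fin n) K) : Fin n → MvPolynomial (Fin n) K) i) = 0 := by
      intro z j
      by_cases hj : i = j
      · subst hj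
        rw [Pi.single_eq_same, ← C_1, pderiv_C]
      · rw [Pi.single_eq_of_ne hj, map_zero]
    rw [h1, h1, sub_zero]
  have h2 := congrArg (fun D : Derivation K (MvPolynomial (Fin n) K) (MvPolynomial (Fin n) K) =>
    D f) h
  simp only [Derivation.commutator_apply, Derivation.zero_apply] at h2
  exact sub_eq_zero.1 h2

private theorem abpH_pd_comm (x : Fin n) (Ls : List (Fin n)) (f : MvPolynomial (Fin n) K) :
    pderiv x (pd Ls f) = pd Ls (pderiv x f) := by
  induction Ls with
  | nil => rfl
  | cons y Ls ih => rw [pd_cons, pd_cons, abpH_pderiv_comm, ih]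

variable [CharZero K] {σ : Type*}

/- PLAN. Given `a i = pd (Ls i) (g i)`, `g i` a program with `L i`, `w' i`, `M i`, `u i`, `v i`. Let
`P l` be the finite set of all `pd ((J j :: Ls i).filter (blk · = l)) (M i l a b)` with `l < L i`
(at most `N * N * w * w = (N * w) ^ 2` elements, `N ≤ M₀`; they are in `Dc 𝓑 (m + 1)` by
`List.length_filter_le`, and do not depend on the variables outside the layer `l`: `pderiv` commutes
with `pd` and kills `M i l a b`). `RA_pd` for the list `J j :: Ls i`, `RA.len` (to the maximum of the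
`L i`), `RA.mono` to `w`, `RA.det`, `RA.mono` to `wd w M₀` (`M! * w ^ M ≤ M₀! * (w + 1) ^ M₀`),
`RA_hit`. -/
theorem abp_H1 {φ : Fin n → MvPolynomial (Fin n) K} {μ : ℕ} (hgp : Good φ μ)
    {c w : ℕ} {blk : Fin n → ℕ} {𝓑 : Set (MvPolynomial (Fin n) K)}
    {M₀ m : ℕ} (h : H1P φ μ c (Dc 𝓑 (m + 2)) (rowsA w M₀)) :
    H1P φ μ (c + EE (wd w M₀) (2 * (M₀ * w) ^ 2)) (Dc (Abp w blk 𝓑) m) M₀ := by
  classical
  intro M hM a ha J hdet
  choose Ls hLs g hg hag using ha
  choose L w' Mt u v hw hMB hvars hgF using hg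
  -- the finite sets
  set P : ℕ → Finset (MvPolynomial (Fin n) K) := fun l =>
    Finset.univ.biUnion fun i : Fin M => Finset.univ.biUnion fun j : Fin M =>
      if l < L i then Finset.univ.image (fun ab : Fin (w' i) × Fin (w' i) =>
        pd ((J j :: Ls i).filter fun x => blk x = l) (Mt i l ab.1 ab.2)) else ∅ with hP
  have hmem : ∀ l x, x ∈ P l → ∃ (i j : Fin M) (a b : Fin (w' i)), l < L i ∧
      pd ((J j :: Ls i).filter fun x => blk x = l) (Mt i l a b) = x := by
    intro l x hx
    rw [hP] at hx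
    simp only [Finset.mem_biUnion, Finset.mem_univ, true_and] at hx
    obtain ⟨i, j, hx⟩ := hx
    by_cases hl : l < L i
    · rw [if_pos hl, Finset.mem_image] at hx
      obtain ⟨ab, _, hab⟩ := hx
      exact ⟨i, j, ab.1, ab.2, hl, hab⟩
    · rw [if_neg hl] at hx
      exact absurd hx (Finset.notMem_empty _)
  have hmem' : ∀ l (i j : Fin M) (a b : Fin (w' i)), l < L i →
      pd ((J j :: Ls i).filter fun x => blk x = l) (Mt i l a b) ∈ P l := by
    intro l i j a b hl
    rw [hP]
    simp only [Finset.mem_biUnion, Finset.mem_univ, true_and]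
    refine ⟨i, j, ?_⟩
    rw [if_pos hl, Finset.mem_image]
    exact ⟨(a, b), Finset.mem_univ _, rfl⟩
  have hN : ∀ l, (P l).card ≤ (M₀ * w) ^ 2 := by
    intro l
    have h1 : ∀ i ∈ (Finset.univ : Finset (Fin M)), (Finset.univ.biUnion fun j : Fin M =>
        if l < L i then Finset.univ.image (fun ab : Fin (w' i) × Fin (w' i) =>
          pd ((J j :: Ls i).filter fun x => blk x = l) (Mt i l ab.1 ab.2)) else ∅).card ≤
        M * (w * w) := by
      intro i _
      refine (Finset.card_biUnion_le_card_mul _ _ (w * w) ?_).trans ?_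
      · intro j _
        split_ifs
        · refine Finset.card_image_le.trans ?_
          rw [Finset.card_univ, Fintype.card_prod, Fintype.card_fin]
          exact Nat.mul_le_mul (hw i) (hw i)
        · simp
      · rw [Finset.card_univ, Fintype.card_fin]
    have h2 := Finset.card_biUnion_le_card_mul _ _ (M * (w * w)) h1
    rw [Finset.card_univ, Fintype.card_fin] at h2
    refine h2.trans ?_
    calc M * (M * (w * w)) ≤ M₀ * (M₀ * (w * w)) :=
          Nat.mul_le_mul hM (Nat.mul_le_mul_right _ hM)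
      _ = (M₀ * w) ^ 2 := by ring
  have hB : ∀ l, ∀ x ∈ P l, x ∈ Dc 𝓑 (m + 1) := by
    intro l x hx
    obtain ⟨i, j, a, b, hl, rfl⟩ := hmem l x hx
    refine ⟨_, ?_, Mt i l a b, hMB i l hl a b, rfl⟩
    refine (List.length_filter_le _ _).trans ?_
    rw [List.length_cons]
    have := hLs i
    omega
  have hblk : ∀ l, ∀ x ∈ P l, ∀ v, blk v ≠ l → pderiv v x = 0 := by
    intro l x hx v hv
    obtain ⟨i, j, a, b, hl, rfl⟩ := hmem l x hx
    rw [abpH_pd_comm, pderiv_eq_zero, pd_zero]
    intro hvv
    exact hv (hvars i l hl a b v hvv)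
  -- the entries
  have hRA : ∀ i j, RA (fun l => Algebra.adjoin K (P l : Set (MvPolynomial (Fin n) K)))
      (Finset.univ.sup L) w (pderiv (J j) (a i)) := by
    intro i j
    have h3 := RA_pd (hvars i) (u i) (v i) (J j :: Ls i)
      (𝒜 := fun l => Algebra.adjoin K (P l : Set (MvPolynomial (Fin n) K)))
      (fun l hl a b => Algebra.subset_adjoin (hmem' l i j a b hl))
    have h4 : pderiv (J j) (a i) =
        pd (J j :: Ls i) (∑ k, ∑ k', C (u i k) * iprod (Mt i) 0 (L i) k k' * C (v i k')) := by
      rw [pd_cons, hag i, hgF i]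
    rw [h4]
    exact (h3.len (Finset.le_sup (Finset.mem_univ i))).mono (hw i)
  have hdetRA : RA (fun l => Algebra.adjoin K (P l : Set (MvPolynomial (Fin n) K)))
      (Finset.univ.sup L) (wd w M₀) (Matrix.of fun i j => pderiv (J j) (a i)).det := by
    refine (RA.det (Matrix.of fun i j => pderiv (J j) (a i)) fun i j => hRA i j).mono ?_
    unfold wd
    refine Nat.mul_le_mul (Nat.factorial_le hM) ?_
    exact (Nat.pow_le_pow_left (Nat.le_succ w) M).trans
      (Nat.pow_le_pow_right (Nat.succ_pos w) hM)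
  exact RA_hit hgp P hN hB hblk h hdetRA hdet

end Pool.Agent.CWA
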