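import Pool.Agent.CWA.AbpH
import Pool.Agent.CWR.CircH

/-!
# CWA: Jacobian minors of formulas
-/

set_option autoImplicit false

namespace Pool.Agent.CWA

open MvPolynomial Pool.Agent.ORB Pool.Agent.ORA Pool.Agent.CWR

variable {K : Type*} [Field K] [CharZero K] {n : ℕ} {κ w : ℕ} {β : ℕ → Option (Fin n → ℕ)}
  {𝓛 : Set (MvPolynomial (Fin n) K)}

theorem circ_H1_aux {φ : Fin n → MvPolynomial (Fin n) K} {μ : ℕ} (hp : Good φ μ) {k Δ : ℕ}
    (h : H1P φ μ 2 (Dc 𝓛 (2 * Δ)) (sz κ k w Δ)) :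
    ∀ j i, i + j = Δ → H1P φ μ (2 + ∑ t ∈ Finset.Ico i Δ, cost κ k w t)
      (Dc (Cs κ w β 𝓛 j) (2 * i)) (sz κ k w i) := by
  intro j
  induction j with
  | zero =>
    intro i hi
    obtain rfl : i = Δ := by omega
    rw [Finset.Ico_self, Finset.sum_empty, Cs_zero]
    exact h
  | succ j ih =>
    intro i hi
    have h1 := ih (i + 1) (by omega)
    have hlt : i < Δ := by omega
    have e1 : 2 + ∑ t ∈ Finset.Ico i Δ, cost κ k w t =
        2 + ∑ t ∈ Finset.Ico (i + 1) Δ, cost κ k w t + cost κ k w i := by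
      rw [Finset.sum_eq_sum_Ico_succ_bot hlt]
      ring
    rw [e1]
    have hsz : sz κ k w (i + 1) = rowsG κ (sz κ k w i) (2 * i) + rowsA w (sz κ k w i) := rfl
    rw [hsz] at h1
    rcases hβ : β j with _ | blk
    · have h2 := gate_H1G (κ := κ) (m := 2 * i) (N := sz κ k w i) hp
        (H1P_mono h1 le_rfl (Dc_mono subset_rfl (by omega)) (Nat.le_add_right _ _))
      exact H1P_mono h2 (Nat.add_le_add_left (Nat.le_add_right _ _) _)
        (Dc_mono (Cs_gate hβ) le_rfl) le_rfl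
    · have h2 := abp_H1 (w := w) (blk := blk) (m := 2 * i) (M₀ := sz κ k w i) hp
        (H1P_mono h1 le_rfl (Dc_mono subset_rfl (by omega)) (Nat.le_add_left _ _))
      exact H1P_mono h2 (Nat.add_le_add_left (Nat.le_add_left _ _) _)
        (Dc_mono (Cs_abp hβ) le_rfl) le_rfl

/-- **Closure theorem.** -/
theorem circ_hit {φ : Fin n → MvPolynomial (Fin n) K} {μ : ℕ} (hp : Good φ μ) {k Δ : ℕ}
    (h : H1P φ μ 2 (Dc 𝓛 (2 * Δ)) (sz κ k w Δ)) {N : ℕ} (T : Fin N → MvPolynomial (Fin n) K)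
    (hT : ∀ i, Circ κ w β (fun g => g ∈ 𝓛) Δ (T i))
    (htr : ∀ c : Finset (Fin N), AlgebraicIndepOn K T (c : Set (Fin N)) → c.card ≤ k)
    (g : MvPolynomial (Fin n) K) (hg : IsAlgebraic (Algebra.adjoin K (Set.range T)) g)
    (hg0 : g ≠ 0) : Psi φ μ (2 + Etot κ k w Δ) g ≠ 0 := by
  have h1 := circ_H1_aux (β := β) hp h Δ 0 (by omega)
  rw [← Finset.range_eq_Ico] at h1
  obtain ⟨⟨c0, hc0, hφ⟩, hcv⟩ := hp
  unfold Etot
  rw [← add_assoc]
  refine Psi_faith φ c0 hc0 hφ μ _ hcv k T htr ?_ g hg hg0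
  intro M hM e J hdet
  exact h1 M hM _ (fun i => ⟨[], Nat.zero_le _, T (e i), hT _, rfl⟩) J hdet

end Pool.Agent.CWA
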