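import Pool.Agent.CWA.Defs
import Pool.Agent.ORA.Gates

/-!
# CWA: the generator composed with a polynomial automorphism
-/

set_option autoImplicit false

namespace Pool.Agent.CWA

open MvPolynomial Pool.Agent.ORB Pool.Agent.ORA

variable {K : Type*} [Field K] {n : ℕ}

/-- the hypotheses on the map and on the curves -/
def Good (φ : Fin n → MvPolynomial (Fin n) K) (μ : ℕ) : Prop :=
  (∃ c : K, c ≠ 0 ∧ (Matrix.of fun i j => pderiv i (φ j)).det = C c) ∧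
    LinearIndependent K (cvx K n μ)

theorem Psi_mono [Infinite K] (φ : Fin n → MvPolynomial (Fin n) K) (μ : ℕ) {c c' : ℕ} (h : c ≤ c')
    {F : MvPolynomial (Fin n) K} (hF : Psi φ μ c F ≠ 0) : Psi φ μ c' F ≠ 0 := by
  rw [Psi_apply] at hF ⊢
  exact PhiP_mono _ _ h hF

theorem H1P_mono [Infinite K] {φ : Fin n → MvPolynomial (Fin n) K} {μ c c' N N' : ℕ}
    {𝓓 𝓓' : Set (MvPolynomial (Fin n) K)}
    (h : H1P φ μ c 𝓓 N) (hc : c ≤ c') (hD : 𝓓' ⊆ 𝓓) (hN : N' ≤ N) : H1P φ μ c' 𝓓' N' :=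
  fun M hM a ha J hdet =>
    Psi_mono φ μ hc (h M (hM.trans hN) a (fun i => hD (ha i)) J hdet)

theorem gate_H1G [CharZero K] {φ : Fin n → MvPolynomial (Fin n) K} {μ : ℕ} (hp : Good φ μ)
    {c κ : ℕ} {𝓑 : Set (MvPolynomial (Fin n) K)} {N m : ℕ}
    (h : H1P φ μ c (Dc 𝓑 (m + 1)) (nRows κ N m)) :
    H1P φ μ (c + nRows κ N m) (Dc (Gate κ 𝓑) m) N := by
  obtain ⟨⟨c0, hc0, hφ⟩, hcv⟩ := hp
  exact gate_H1P φ c0 hc0 hφ μ hcv h

end Pool.Agent.CWA
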