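import Pool.Agent.CWR.Defs
import Pool.Agent.ORA.Defs

/-!
Project CWA (MP_e2be99_lc): polynomials which become, after an unknown polynomial automorphism of
affine space, formulas of bounded depth with gates of bounded occurrence and gates which are
read-once oblivious algebraic branching programs of bounded width.  Definitions used in the
statement; `Circ`, `ROABP`, `sz`, `Etot` are those of `Pool.Agent.CWR.Defs`, `FrameLeaf`, `IsFrame`
those of `Pool.Agent.ORG.Defs`, `hitSet` that of `Pool.Agent.ORA.Defs`.
-/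

set_option autoImplicit false

namespace Pool.Agent.CWA

open MvPolynomial Pool.Agent.ORB Pool.Agent.ORG Pool.Agent.CWR

/-- `g(x) = h(φ(x))`, where `φ` is a polynomial map with constant nonzero Jacobian determinant and `h`
is algebraic over the field generated by formulas `T_i` of depth `Δ` over the leaves of one frame, at
most `k` of which are algebraically independent. -/
def AutCirc {K : Type*} [Field K] {n : ℕ} (κ k w s Δ : ℕ) (g : MvPolynomial (Fin n) K) : Prop :=
  ∃ (φ : Fin n → MvPolynomial (Fin n) K) (c : K)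
    (a : Matrix (Fin n) (Fin n) (MvPolynomial (Fin n) K)) (β : ℕ → Option (Fin n → ℕ)) (N : ℕ)
    (T : Fin N → MvPolynomial (Fin n) K) (h : MvPolynomial (Fin n) K),
    c ≠ 0 ∧ (Matrix.of fun i j => pderiv i (φ j)).det = C c ∧
    IsFrame a s ∧ (∀ i, Circ κ w β (FrameLeaf a s) Δ (T i)) ∧
    (∀ b : Finset (Fin N), AlgebraicIndepOn K T (b : Set (Fin N)) → b.card ≤ k) ∧
    IsAlgebraic (Algebra.adjoin K (Set.range T)) h ∧ g = aeval φ h

/-- `M = n (m! (n^(2Δ+1) s)^m + s + 2)²`, `m = m_Δ` -/
def ordA (n κ k w s Δ : ℕ) : ℕ :=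
  n * ((sz κ k w Δ).factorial * (n ^ (2 * Δ + 1) * s) ^ sz κ k w Δ + s + 2) ^ 2

end Pool.Agent.CWA
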