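import Pool.Agent.CWA.HH

/-!
# CWA: coverings of blocks with some derivatives
-/

set_option autoImplicit false

namespace Pool.Agent.CWA

open MvPolynomial Pool.Agent.ORB Pool.Agent.ORA Pool.Agent.CWR

variable {K : Type*} [Field K] [CharZero K] {n w : ℕ} {σ : Type*} {φ : Fin n → MvPolynomial (Fin n) K}
  {μ : ℕ} {blk : Fin n → ℕ}
  {M : ℕ → Matrix (Fin w) (Fin w) (MvPolynomial (Fin n) K)}

omit [CharZero K] in
private theorem lc_adj (hM : Lay blk M) {a l b : ℕ} (h1 : a ≤ l) (h2 : l < b)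
    (I : Finset (Fin n)) (hI : ∀ v ∈ I, a ≤ blk v ∧ blk v ≤ l)
    (S : Subalgebra K (MvPolynomial (Fin n) K))
    (hX : ∀ x ∈ ents (iprod M a l) ∪ dents (I.filter fun v => blk v < l) (iprod M a l), x ∈ S)
    (hY : ∀ x ∈ ents (M l) ∪ dents (I.filter fun v => blk v = l) (M l), x ∈ S)
    (hZ : ∀ x ∈ ents (iprod M (l + 1) b), x ∈ S) :
    ∀ x ∈ ents (iprod M a b) ∪ dents I (iprod M a b), x ∈ S := by
  have hX1 : ∀ i j, iprod M a l i j ∈ S := fun i j => hX _ (Or.inl ⟨i, j, rfl⟩)
  have hY1 : ∀ i j, M l i j ∈ S := fun i j => hY _ (Or.inl ⟨i, j, rfl⟩)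
  have hZ1 : ∀ i j, iprod M (l + 1) b i j ∈ S := fun i j => hZ _ ⟨i, j, rfl⟩
  have e1 : M l * iprod M (l + 1) b = iprod M l b := by
    rw [← iprod_succ M l, iprod_mul M (Nat.le_succ l) h2]
  have e2 : iprod M a l * iprod M l b = iprod M a b := iprod_mul M h1 h2.le
  have hYZ : ∀ i j, iprod M l b i j ∈ S := by
    rw [← e1]
    exact ents_mul_mem hY1 hZ1
  rintro x (⟨i, j, rfl⟩ | ⟨v, hv, i, j, rfl⟩)
  · rw [← e2]
    exact ents_mul_mem hX1 hYZ i j
  · obtain ⟨hv1, hv2⟩ := hI v hv
    rcases hv2.lt_or_eq with h3 | h3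
    · have e3 : dm v (iprod M a b) = dm v (iprod M a l) * iprod M l b := by
        rw [← e2, dm_mul, dm_iprod_eq_zero hM (Or.inl h3), mul_zero, add_zero]
      have h4 : ∀ i j, dm v (iprod M a l) i j ∈ S := fun i j =>
        hX _ (Or.inr ⟨v, Finset.mem_filter.2 ⟨hv, h3⟩, i, j, rfl⟩)
      have h5 := ents_mul_mem h4 hYZ i j
      rw [← e3] at h5
      exact h5
    · have e3 : dm v (iprod M a b) = iprod M a l * dm v (M l) * iprod M (l + 1) b := by
        rw [dm_split hM h1 h3.ge (h3 ▸ Nat.lt_succ_self _ : blk v < l + 1) h2, iprod_succ]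
      have h4 : ∀ i j, dm v (M l) i j ∈ S := fun i j =>
        hY _ (Or.inr ⟨v, Finset.mem_filter.2 ⟨hv, h3⟩, i, j, rfl⟩)
      have h5 := ents_mul_mem (ents_mul_mem hX1 h4) hZ1 i j
      rw [← e3] at h5
      exact h5

/- PLAN. Strong induction on `I.card`, for all `b`. `I = ∅`: `h`. Otherwise let `l` be the largest
`blk v`, `v ∈ I`; `T = iprod M a l * M l * iprod M (l + 1) b`; the induction hypothesis for
`[a, l)` and `I₁ = {v ∈ I | blk v < l}` (`k - k'` elements), `hq l I₂` for
`I₂ = {v ∈ I | blk v = l}` (`k' ≥ 1` elements, size `k' * q`), `h` for `[l + 1, b)`; `Cov.union`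
twice.  All entries of `T` and of `dm v T`, `v ∈ I`, are in the `adjoin` of the three families
(`dm_split` or `dm_mul`, `dm_iprod_eq_zero`). -/
theorem loc_aux (hM : Lay blk M) {q c s : ℕ}
    (hq : LCov blk M φ μ c q) {a : ℕ} :
    ∀ (k : ℕ) (b : ℕ), a ≤ b →
      (∀ a' b', a ≤ a' → a' ≤ b' → b' ≤ b →
        Cov φ μ c s (ents (iprod M a' b')) (lay blk a' b')) →
      ∀ I : Finset (Fin n), I.card ≤ k → I.card ≤ w ^ 2 → (∀ v ∈ I, v ∈ lay blk a b) →
        Cov φ μ c ((k + 1) * s + k * q) (ents (iprod M a b) ∪ dents I (iprod M a b))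
          (lay blk a b) := by
  intro k
  induction k using Nat.strong_induction_on with
  | _ k ih =>
    intro b hab h I hIk hIw hI
    rcases I.eq_empty_or_nonempty with hI0 | hI0
    · refine (h a b le_rfl hab le_rfl).mono le_rfl ?_ ?_ subset_rfl
      · rw [add_mul, one_mul]
        omega
      · rintro x (hx | ⟨v, hv, _⟩)
        · exact hx
        · rw [hI0] at hv
          exact absurd hv (Finset.notMem_empty v)
    · obtain ⟨v0, hv0, hmax⟩ := I.exists_max_image blk hI0
      obtain ⟨l, hl⟩ : ∃ l, l = blk v0 := ⟨_, rfl⟩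
      rw [← hl] at hmax
      have hal : a ≤ l := hl ▸ (hI v0 hv0).1
      have hlb : l < b := hl ▸ (hI v0 hv0).2
      have hcard : (I.filter fun v => blk v < l).card + (I.filter fun v => blk v = l).card =
          I.card := by
        have h1 := Finset.card_filter_add_card_filter_not (s := I) (fun v => blk v < l)
        have h2 : (I.filter fun v => ¬ blk v < l) = I.filter fun v => blk v = l := by
          refine Finset.filter_congr fun v hv => ?_
          have := hmax v hv
          omega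
        rw [h2] at h1
        exact h1
      have hpos : 1 ≤ (I.filter fun v => blk v = l).card :=
        Finset.card_pos.2 ⟨v0, Finset.mem_filter.2 ⟨hv0, hl.symm⟩⟩
      obtain ⟨k₂, hk₂⟩ : ∃ k₂, k₂ = (I.filter fun v => blk v = l).card := ⟨_, rfl⟩
      obtain ⟨k₁, hk₁⟩ : ∃ k₁, k = k₁ + k₂ := ⟨k - k₂, by omega⟩
      have c1 := ih k₁ (by omega) l hal (fun a' b' h1 h2 h3 => h a' b' h1 h2 (h3.trans hlb.le))
        (I.filter fun v => blk v < l) (by omega) (by omega) (by
          intro v hv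
          obtain ⟨hv1, hv2⟩ := Finset.mem_filter.1 hv
          exact ⟨(hI v hv1).1, hv2⟩)
      have c2 := hq l (I.filter fun v => blk v = l) (fun v hv => (Finset.mem_filter.1 hv).2)
        ((Finset.card_filter_le _ _).trans hIw)
      have c3 := h (l + 1) b (by omega) hlb le_rfl
      have c4 := (c1.union c2 (by
        rintro v ⟨h1, h2⟩ ⟨h3, h4⟩
        omega)).union c3 (by
        rintro v ⟨h1, h2⟩ (⟨h3, h4⟩ | ⟨h3, h4⟩) <;> omega)
      have c5 := c4.mono (c' := c) (s' := (k + 1) * s + k * q) (V' := lay blk a b) le_rfl (by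
        rw [← hk₂, max_eq_right (by omega : 1 ≤ k₂), hk₁]
        have e1 : (k₁ + k₂ + 1) * s + (k₁ + k₂) * q =
            (k₁ + 1) * s + k₁ * q + k₂ * q + k₂ * s := by ring
        have e2 : 1 * s ≤ k₂ * s := Nat.mul_le_mul_right s (by omega)
        omega) subset_rfl (by
        rintro v ((⟨h1, h2⟩ | ⟨h1, h2⟩) | ⟨h1, h2⟩) <;> constructor <;> omega)
      refine c5.of_adjoin (lc_adj hM hal hlb I (fun v hv => ⟨(hI v hv).1, hmax v hv⟩) _ ?_ ?_ ?_)
      · exact fun x hx => Algebra.subset_adjoin (Or.inl (Or.inl hx))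
      · exact fun x hx => Algebra.subset_adjoin (Or.inl (Or.inr hx))
      · exact fun x hx => Algebra.subset_adjoin (Or.inr hx)

/- PLAN. `T = iprod M a (b-1) * M (b-1)`; `loc_aux` for `[a, b-1)` (all its subintervals are empty or
of rank `> ρ`: `rk_iprod_anti`) and `{v ∈ I | blk v < b - 1}` (`k₁` elements), `hq (b - 1)` for
`{v ∈ I | blk v = b - 1}` (`k₂` elements), `Cov.union`: the size is
`(k₁ + 1) * s + k₁ * q + max 1 k₂ * q ≤ (k₁ + k₂ + 1) * (s + q)`. -/
theorem loc (hM : Lay blk M) {q c s ρ : ℕ}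
    (hq : LCov blk M φ μ c q)
    (h : HH blk M φ μ (ρ + 1) c s) {a b : ℕ} (hab : a < b)
    (hmin : a + 1 = b ∨ ρ < rk (iprod M a (b - 1))) (I : Finset (Fin n))
    (hIc : I.card ≤ w ^ 2) (hI : ∀ v ∈ I, v ∈ lay blk a b) :
    Cov φ μ c ((I.card + 1) * (s + q)) (ents (iprod M a b) ∪ dents I (iprod M a b))
      (lay blk a b) := by
  obtain ⟨l, rfl⟩ : ∃ l, b = l + 1 := ⟨b - 1, by omega⟩
  rw [Nat.add_sub_cancel] at hmin
  have hal : a ≤ l := by omega
  have hmax : ∀ v ∈ I, blk v ≤ l := fun v hv => by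
    have := (hI v hv).2
    omega
  have hcard : (I.filter fun v => blk v < l).card + (I.filter fun v => blk v = l).card =
      I.card := by
    have h1 := Finset.card_filter_add_card_filter_not (s := I) (fun v => blk v < l)
    have h2 : (I.filter fun v => ¬ blk v < l) = I.filter fun v => blk v = l := by
      refine Finset.filter_congr fun v hv => ?_
      have := hmax v hv
      omega
    rw [h2] at h1
    exact h1
  have c1 := loc_aux hM hq (I.filter fun v => blk v < l).card l hal (fun a' b' h1 h2 h3 => by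
      refine h a' b' h2 ?_
      rcases hmin with h4 | h4
      · left
        omega
      · right
        exact h4.trans_le (rk_iprod_anti M h1 h2 h3)) (I.filter fun v => blk v < l) le_rfl
    ((Finset.card_filter_le _ _).trans hIc) (by
      intro v hv
      obtain ⟨hv1, hv2⟩ := Finset.mem_filter.1 hv
      exact ⟨(hI v hv1).1, hv2⟩)
  have c2 := hq l (I.filter fun v => blk v = l) (fun v hv => (Finset.mem_filter.1 hv).2)
    ((Finset.card_filter_le _ _).trans hIc)
  have c4 := c1.union c2 (by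
    rintro v ⟨h1, h2⟩ ⟨h3, h4⟩
    omega)
  have c5 := c4.mono (c' := c) (s' := (I.card + 1) * (s + q)) (V' := lay blk a (l + 1)) le_rfl (by
    rw [← hcard]
    generalize (I.filter fun v => blk v < l).card = k₁
    generalize (I.filter fun v => blk v = l).card = k₂
    have e1 : (k₁ + k₂ + 1) * (s + q) =
        (k₁ + 1) * s + k₁ * q + (1 + k₂) * q + k₂ * s := by ring
    have e2 : max 1 k₂ * q ≤ (1 + k₂) * q :=
      Nat.mul_le_mul_right q (max_le (by omega) (by omega))
    omega) subset_rfl (by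
    rintro v (⟨h1, h2⟩ | ⟨h1, h2⟩) <;> constructor <;> omega)
  refine c5.of_adjoin (lc_adj hM hal (Nat.lt_succ_self l) I
    (fun v hv => ⟨(hI v hv).1, hmax v hv⟩) _ ?_ ?_ ?_)
  · exact fun x hx => Algebra.subset_adjoin (Or.inl hx)
  · exact fun x hx => Algebra.subset_adjoin (Or.inr hx)
  · rintro x ⟨i, j, rfl⟩
    rw [iprod_self]
    by_cases hij : i = j
    · rw [hij, Matrix.one_apply_eq]
      exact one_mem _
    · rw [Matrix.one_apply_ne hij]
      exact zero_mem _

end Pool.Agent.CWA
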