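import Pool.Agent.CWA.CircH
import Pool.Agent.ORA.Base
import Pool.Agent.ORA.GridA
import Pool.Agent.ORA.GridB

/-!
# CWA: main theorem
-/

set_option autoImplicit false

namespace Pool.Agent.CWA

open MvPolynomial Pool.Agent.ORB Pool.Agent.ORG Pool.Agent.ORA Pool.Agent.CWR

variable {K : Type*} [Field K] [CharZero K] {n : ℕ}

theorem ordA_ge (n κ k w s Δ : ℕ) :
    n * ((sz κ k w Δ).factorial * (n ^ (2 * Δ + 1) * s) ^ sz κ k w Δ) ^ 2 ≤ ordA n κ k w s Δ ∧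
      n * s ^ 2 ≤ ordA n κ k w s Δ ∧ n * 2 ^ 2 ≤ ordA n κ k w s Δ := by
  unfold ordA
  refine ⟨Nat.mul_le_mul_left _ (Nat.pow_le_pow_left (by omega) _),
    Nat.mul_le_mul_left _ (Nat.pow_le_pow_left (by omega) _),
    Nat.mul_le_mul_left _ (Nat.pow_le_pow_left (by omega) _)⟩

/-- the generator hits the class -/
theorem class_hit (κ k w s Δ : ℕ) (g : MvPolynomial (Fin n) K) (hg : AutCirc κ k w s Δ g)
    (hg0 : g ≠ 0) : PhiP (cvx K n (ordA n κ k w s Δ)) (fun _ => (0 : MvPolynomial (Fin 0) K))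
      (2 + Etot κ k w Δ) g ≠ 0 := by
  obtain ⟨φ, c, a, β, N, T, h, hc, hφ, ha, hT, htr, halg, rfl⟩ := hg
  obtain ⟨h1, h2, h3⟩ := ordA_ge n κ k w s Δ
  have hh0 : h ≠ 0 := by
    rintro rfl
    exact hg0 (map_zero _)
  exact circ_hit (𝓛 := {g | FrameLeaf a s g}) ⟨⟨c, hc, hφ⟩, linearIndependent_cvx _ h3⟩
    (leaf_H1P φ c hc hφ s _ _ (2 * Δ) h1 h2 ha) T hT htr h halg hh0

theorem main_hit (κ k w s Δ D m : ℕ) (g : Fin m → MvPolynomial (Fin n) K)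
    (hg : ∀ j, AutCirc κ k w s Δ (g j)) (hg0 : ∀ j, g j ≠ 0) (f : MvPolynomial (Fin n) K)
    (hf : f ∣ ∏ j, g j) (hD : f.totalDegree ≤ D) :
    ∃ x ∈ hitSet n (ordA n κ k w s Δ) (2 + Etot κ k w Δ) (D * (ordA n κ k w s Δ + 1)),
      eval (fun i => (x i : K)) f ≠ 0 := by
  refine exists_mem_hitSet _ _ D f hD ?_
  intro h0
  obtain ⟨q, hq⟩ := hf
  have h1 := congrArg (PhiP (cvx K n (ordA n κ k w s Δ)) (fun _ => (0 : MvPolynomial (Fin 0) K))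
    (2 + Etot κ k w Δ)) hq
  rw [map_mul, h0, zero_mul, map_prod, Finset.prod_eq_zero_iff] at h1
  obtain ⟨j, -, hj⟩ := h1
  exact class_hit κ k w s Δ (g j) (hg j) (hg0 j) hj

end Pool.Agent.CWA
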