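import Pool.Agent.CWA.Defs

/-!
# CWA: read-once oblivious branching programs with at most `q` variables per layer are in the class
-/

set_option autoImplicit false

namespace Pool.Agent.CWA

open MvPolynomial Pool.Agent.ORB Pool.Agent.ORG Pool.Agent.CWR

variable {K : Type*} [Field K] {n : ℕ}

private theorem roInA_one_sum (j : Fin n) (h : MvPolynomial (Fin n) K) :
    ∑ i, (1 : Matrix (Fin n) (Fin n) (MvPolynomial (Fin n) K)) j i * pderiv i h = pderiv j h := by
  classical
  rw [Finset.sum_eq_single j]
  · rw [Matrix.one_apply_eq, one_mul]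
  · intro b _ hb
    rw [Matrix.one_apply_ne (Ne.symm hb), zero_mul]
  · intro hj
    exact absurd (Finset.mem_univ j) hj

theorem frameLeaf_one_X (v : Fin n) : FrameLeaf 1 2 (X v : MvPolynomial (Fin n) K) := by
  classical
  have hfin : (({1, X v} : Set (MvPolynomial (Fin n) K))).Finite := by simp
  refine ⟨Submodule.span K {1, X v}, FiniteDimensional.span_of_finite K hfin, ?_,
    Submodule.subset_span (by simp), ?_⟩
  · have h1 := finrank_span_finset_le_card (R := K) ({1, X v} : Finset (MvPolynomial (Fin n) K))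
    have h2 : (({1, X v} : Finset (MvPolynomial (Fin n) K)) : Set (MvPolynomial (Fin n) K)) =
        {1, X v} := by simp
    rw [Set.finrank, h2] at h1
    exact h1.trans Finset.card_le_two
  · intro h hh j
    rw [roInA_one_sum]
    obtain ⟨a, b, rfl⟩ := Submodule.mem_span_pair.1 hh
    have h1 : pderiv j (a • (1 : MvPolynomial (Fin n) K) + b • X v) =
        (if v = j then b else 0) • (1 : MvPolynomial (Fin n) K) := by
      rw [map_add, Derivation.map_smul, Derivation.map_smul, pderiv_one, smul_zero, zero_add]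
      by_cases hvj : v = j
      · subst hvj
        rw [pderiv_X_self, if_pos rfl]
      · rw [pderiv_X_of_ne hvj, if_neg hvj, smul_zero, zero_smul]
    rw [h1]
    exact Submodule.smul_mem _ _ (Submodule.subset_span (by simp))

theorem isFrame_one (s : ℕ) :
    IsFrame (1 : Matrix (Fin n) (Fin n) (MvPolynomial (Fin n) K)) s := by
  classical
  refine ⟨fun j i => ?_, 0, Fin.elim0, fun l => l.elim0, fun l => l.elim0, fun β _ => ?_⟩
  · rw [Matrix.one_apply]
    split_ifs
    · rw [totalDegree_one]
      exact Nat.zero_le _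
    · rw [totalDegree_zero]
      exact Nat.zero_le _
  · rw [Matrix.map_one _ (map_zero _) (map_one _), Matrix.det_one]
    exact one_ne_zero

/-- polynomials in at most `q` variables -/
theorem circ_of_vars {q w : ℕ} {β : ℕ → Option (Fin n → ℕ)} (hβ : β 0 = none)
    (A : Finset (Fin n)) (hA : A.card ≤ q) (F : MvPolynomial (Fin n) K) (hF : ∀ x ∈ F.vars, x ∈ A) :
    Circ q w β (FrameLeaf 1 2) 1 F := by
  have hinj : Function.Injective (fun i : Fin A.card => ((A.equivFin.symm i : A) : Fin n)) := by
    intro i j hij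
    exact A.equivFin.symm.injective (Subtype.ext hij)
  have hr : (F.vars : Set (Fin n)) ⊆
      Set.range (fun i : Fin A.card => ((A.equivFin.symm i : A) : Fin n)) := by
    intro x hx
    have hxA : x ∈ A := hF x (Finset.mem_coe.mp hx)
    refine ⟨A.equivFin ⟨x, hxA⟩, ?_⟩
    simp
  obtain ⟨p, hp⟩ := MvPolynomial.exists_rename_eq_of_vars_subset_range F _ hinj hr
  have h1 : F = MvPolynomial.aeval
      (fun i : Fin A.card => (X ((A.equivFin.symm i : A) : Fin n) : MvPolynomial (Fin n) K)) p := by
    rw [← hp]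
    have h2 : (MvPolynomial.rename (fun i : Fin A.card => ((A.equivFin.symm i : A) : Fin n)) :
        MvPolynomial (Fin A.card) K →ₐ[K] MvPolynomial (Fin n) K) =
        MvPolynomial.aeval (fun i : Fin A.card =>
          (X ((A.equivFin.symm i : A) : Fin n) : MvPolynomial (Fin n) K)) := by
      refine MvPolynomial.algHom_ext (fun i => ?_)
      rw [MvPolynomial.rename_X, MvPolynomial.aeval_X]
    rw [h2]
  rw [h1]
  exact Circ.comp (Δ := 0) hβ _ (fun l => Circ.leaf (frameLeaf_one_X _)) hA p

theorem circ_of_roabp {q w : ℕ} {blk : Fin n → ℕ}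
    (hq : ∀ l, (Finset.univ.filter fun v => blk v = l).card ≤ q) {F : MvPolynomial (Fin n) K}
    (hF : ROABP blk w F) :
    Circ q w (fun j => if j = 0 then none else some blk) (FrameLeaf 1 2) 2 F := by
  obtain ⟨L, M, u, v, hv, rfl⟩ := hF
  refine Circ.abp (Δ := 1) (blk := blk) (by simp) (le_refl w) M (fun l hl i j => ?_) hv u v
  refine circ_of_vars (by simp) (Finset.univ.filter fun v => blk v = l) (hq l) (M l i j)
    (fun x hx => ?_)
  exact Finset.mem_filter.mpr ⟨Finset.mem_univ x, hv l hl i j x hx⟩

theorem autCirc_of_roabp {q w : ℕ} {blk : Fin n → ℕ}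
    (hq : ∀ l, (Finset.univ.filter fun v => blk v = l).card ≤ q) {F : MvPolynomial (Fin n) K}
    (hF : ROABP blk w F) (φ : Fin n → MvPolynomial (Fin n) K) (c : K) (hc : c ≠ 0)
    (hφ : (Matrix.of fun i j => pderiv i (φ j)).det = C c) :
    AutCirc q 1 w 2 2 (aeval φ F) := by
  refine ⟨φ, c, 1, fun j => if j = 0 then none else some blk, 1, fun _ => F, F, hc, hφ,
    isFrame_one 2, fun _ => circ_of_roabp hq hF, fun c _ => ?_, ?_, rfl⟩
  · exact (Finset.card_le_univ c).trans (by simp)
  · exact isAlgebraic_algebraMap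
      (⟨F, Algebra.subset_adjoin ⟨0, rfl⟩⟩ :
        Algebra.adjoin K (Set.range (fun _ : Fin 1 => F)))

end Pool.Agent.CWA
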