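import Pool.Agent.CWA.RoInA
import Pool.Agent.ORB.LeafA

/-!
# CWA: sparse polynomials are leaves of the frame `y_j ∂/∂y_j`
-/

set_option autoImplicit false

namespace Pool.Agent.CWA

open MvPolynomial Pool.Agent.ORB Pool.Agent.ORG Pool.Agent.CWR

variable {K : Type*} [Field K] {n : ℕ}

private theorem sparse_sum (j : Fin n) (h : MvPolynomial (Fin n) K) :
    ∑ i, (Matrix.diagonal fun l => (X l : MvPolynomial (Fin n) K)) j i * pderiv i h =
      X j * pderiv j h := by
  classical
  rw [Finset.sum_eq_single j]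
  · rw [Matrix.diagonal_apply_eq]
  · intro b _ hb
    rw [Matrix.diagonal_apply_ne _ (Ne.symm hb), zero_mul]
  · intro hj
    exact absurd (Finset.mem_univ j) hj

theorem frameLeaf_diagonal {s : ℕ} {g : MvPolynomial (Fin n) K} (hg : g.support.card ≤ s) :
    FrameLeaf (Matrix.diagonal fun l => (X l : MvPolynomial (Fin n) K)) s g := by
  obtain ⟨W, h1, h2, h3, -, h5⟩ := mixedLeaf_of_support hg
  refine ⟨W, h1, h2, h3, fun h hh j => ?_⟩
  rw [sparse_sum]
  exact h5 h hh j (Finset.notMem_empty j)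

theorem isFrame_diagonal {s : ℕ} (hs : 2 ≤ s) :
    IsFrame (Matrix.diagonal fun l : Fin n => (X l : MvPolynomial (Fin n) K)) s := by
  classical
  refine ⟨fun j i => ?_, n, fun l => X l, fun l => X_ne_zero l, fun l => ?_, fun β hβ => ?_⟩
  · rw [Matrix.diagonal_apply]
    split_ifs
    · rw [totalDegree_X]
    · rw [totalDegree_zero]
      exact Nat.zero_le _
  · obtain ⟨W, h1, h2, h3, h4⟩ := frameLeaf_one_X (K := K) l
    exact ⟨W, h1, h2.trans hs, h3, h4⟩
  · rw [Matrix.diagonal_map (map_zero _), Matrix.det_diagonal]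
    refine Finset.prod_ne_zero_iff.2 fun l _ => ?_
    exact hβ l

end Pool.Agent.CWA
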