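import Pool.Agent.CWR.Core

/-!
Project CWA (MP_e2be99_lc): the definitions used in the statement of the result, besides `Circ`,
`ROABP`, `sz`, `Etot` of `Pool.Agent.CWR.Core`.
-/

set_option autoImplicit false

namespace Pool.Agent.CWT

open MvPolynomial Pool.Agent.CWR

/-- `g` is in a space of dimension at most `s` which is closed under the vector fields
`X_j = ∑ i, a_ji ∂/∂y_i`. -/
def FrameLeaf {K : Type*} [Field K] {n : ℕ} (a : Matrix (Fin n) (Fin n) (MvPolynomial (Fin n) K))
    (s : ℕ) (g : MvPolynomial (Fin n) K) : Prop :=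
  ∃ W : Submodule K (MvPolynomial (Fin n) K), FiniteDimensional K W ∧ Module.finrank K W ≤ s ∧
    g ∈ W ∧ ∀ h ∈ W, ∀ j, ∑ i, a j i * pderiv i h ∈ W

/-- The vector fields `X_j` are affine, and they are linearly independent at every point at which
certain nonzero polynomials `q_l` do not vanish; every `q_l` is in a space of dimension at most `s`
closed under all partial derivatives. -/
def IsFrame {K : Type*} [Field K] {n : ℕ} (a : Matrix (Fin n) (Fin n) (MvPolynomial (Fin n) K))
    (s : ℕ) : Prop :=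
  (∀ j i, (a j i).totalDegree ≤ 1) ∧
    ∃ (m : ℕ) (q : Fin m → MvPolynomial (Fin n) K), (∀ l, q l ≠ 0) ∧ (∀ l, FrameLeaf 1 s (q l)) ∧
      ∀ β : Fin n → K, (∀ l, eval β (q l) ≠ 0) → (a.map (eval β)).det ≠ 0

/-- `φ` is a polynomial map with constant nonzero Jacobian determinant. -/
def Keller {K : Type*} [Field K] {n : ℕ} (φ : Fin n → MvPolynomial (Fin n) K) : Prop :=
  ∃ c : K, c ≠ 0 ∧ (Matrix.of fun i j => pderiv i (φ j)).det = C c

/-- `g(x) = h(φ(x))`, where `φ` is a polynomial map with constant nonzero Jacobian determinant and `h`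
is algebraic over the field generated by formulas `T_i` of depth `Δ` over the leaves of one frame, at
most `k` of which are algebraically independent. -/
def AutCirc {K : Type*} [Field K] {n : ℕ} (κ k w s Δ : ℕ) (g : MvPolynomial (Fin n) K) : Prop :=
  ∃ (φ : Fin n → MvPolynomial (Fin n) K)
    (a : Matrix (Fin n) (Fin n) (MvPolynomial (Fin n) K)) (β : ℕ → Option (Fin n → ℕ)) (N : ℕ)
    (T : Fin N → MvPolynomial (Fin n) K) (h : MvPolynomial (Fin n) K),
    Keller φ ∧ IsFrame a s ∧ (∀ i, Circ κ w β (FrameLeaf a s) Δ (T i)) ∧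
    (∀ b : Finset (Fin N), AlgebraicIndepOn K T (b : Set (Fin N)) → b.card ≤ k) ∧
    IsAlgebraic (Algebra.adjoin K (Set.range T)) h ∧ g = aeval φ h

/-- `A_i(t) = M! ∑_{r=1..M} (i t)^r / r`, a natural number. -/
def AA (M i t : ℕ) : ℕ := ∑ r ∈ Finset.Icc 1 M, (M.factorial / r) * (i * t) ^ r

/-- The point `x_i = ∑_{l<E} z_l A_i(w_l)`. -/
def pt (n M E : ℕ) (z w : Fin E → ℕ) (i : Fin n) : ℕ := ∑ l, z l * AA M (i + 1) (w l)

/-- All points with parameters in `{0, ..., R}`. -/
def hitSet (n M E R : ℕ) : Finset (Fin n → ℕ) :=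
  ((Fintype.piFinset fun _ : Fin E => Finset.range (R + 1)) ×ˢ
    (Fintype.piFinset fun _ : Fin E => Finset.range (R + 1))).image fun a => pt n M E a.1 a.2

/-- `M = n (m! (n^(2Δ+1) s)^m + s + 2)²`, `m = m_Δ` -/
def ordA (n κ k w s Δ : ℕ) : ℕ :=
  n * ((sz κ k w Δ).factorial * (n ^ (2 * Δ + 1) * s) ^ sz κ k w Δ + s + 2) ^ 2

/-- `E` -/
def seedA (κ k w Δ : ℕ) : ℕ := 2 + Etot κ k w Δ

/-- `R = D (M + 1)` -/
def radA (n κ k w s Δ D : ℕ) : ℕ := D * (ordA n κ k w s Δ + 1)

/-- the hitting set -/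
def hitA (n κ k w s Δ D : ℕ) : Finset (Fin n → ℕ) :=
  hitSet n (ordA n κ k w s Δ) (seedA κ k w Δ) (radA n κ k w s Δ D)

/-- Every divisor `f` of degree at most `D` of a product of nonzero members of the class `𝓒` is nonzero
at a point of `S`. -/
def Hits {K : Type*} [Field K] {n : ℕ} (S : Finset (Fin n → ℕ)) (D : ℕ)
    (𝓒 : MvPolynomial (Fin n) K → Prop) : Prop :=
  ∀ (m : ℕ) (g : Fin m → MvPolynomial (Fin n) K) (_ : ∀ j, g j ≠ 0 ∧ 𝓒 (g j))
    (f : MvPolynomial (Fin n) K) (_ : f ∣ ∏ j, g j) (_ : f.totalDegree ≤ D),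
    ∃ x ∈ S, eval (fun i => (x i : K)) f ≠ 0

/-- Read-once oblivious algebraic branching programs of width `w` with at most `q` variables per
layer, in unknown order, after a polynomial map as above, are in the class. -/
def HasROABP (K : Type*) [Field K] (n w : ℕ) : Prop :=
  ∀ (q : ℕ) (blk : Fin n → ℕ) (F : MvPolynomial (Fin n) K) (φ : Fin n → MvPolynomial (Fin n) K)
    (_ : ∀ l, (Finset.univ.filter fun v => blk v = l).card ≤ q) (_ : ROABP blk w F)
    (_ : Keller φ), AutCirc q 1 w 2 2 (aeval φ F)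

/-- The vector fields `y_j ∂/∂y_j` are a frame, and polynomials with at most `s` monomials are
leaves. -/
def HasSparse (K : Type*) [Field K] (n s : ℕ) : Prop :=
  IsFrame (Matrix.diagonal fun l : Fin n => (X l : MvPolynomial (Fin n) K)) s ∧
    ∀ (g : MvPolynomial (Fin n) K) (_ : g.support.card ≤ s),
      FrameLeaf (Matrix.diagonal fun l => X l) s g

end Pool.Agent.CWT
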