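import Pool.Agent.CWA.Loc
import Pool.Agent.CWA.Pieces

/-!
# CWA: a minor of the truncated chain is hit
-/

set_option autoImplicit false

namespace Pool.Agent.CWA

open MvPolynomial Pool.Agent.ORB Pool.Agent.ORA Pool.Agent.CWR

variable {K : Type*} [Field K] [CharZero K] {n w : ℕ} {σ : Type*} {φ : Fin n → MvPolynomial (Fin n) K}
  {μ : ℕ} {blk : Fin n → ℕ}
  {M : ℕ → Matrix (Fin w) (Fin w) (MvPolynomial (Fin n) K)}

private theorem stepA_hit (hp : Good φ μ) {c s : ℕ} {𝒯 : Set (MvPolynomial (Fin n) K)}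
    {V : Set (Fin n)} (h : Cov φ μ c s 𝒯 V) {F : MvPolynomial (Fin n) K} (hF : F ≠ 0)
    (hA : F ∈ Algebra.adjoin K 𝒯) : Psi φ μ (c + s) F ≠ 0 :=
  hit_of_cov hp h hF (gr_mem_of_adjoin (Submodule.span (QQ K n) (gr '' 𝒯)) 𝒯
    (fun _ hx => Submodule.subset_span (Set.mem_image_of_mem gr hx)) hA)

theorem stepA (hM : Lay blk M) {q c s ρ C s' : ℕ}
    (hq : LCov blk M φ μ c q) (hp : Good φ μ)
    (h : HH blk M φ μ (ρ + 1) c s) (hcC : c ≤ C) {d : ℕ → ℕ} {N : ℕ} (hd : IsChain M ρ d N)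
    (I : Finset (Fin n)) {m : ℕ} (hm : m + 2 ≤ N) (hI : ∀ v ∈ I, v ∈ lay blk (d 0) (d (m + 1)))
    (hIm : ∃ v ∈ I, v ∈ lay blk (d m) (d (m + 1)))
    (hrun : ∀ k t, k < t → t ≤ m → (∀ v ∈ I, v ∉ lay blk (d k) (d t)) →
      Cov φ μ C s' (ents (iprod M (d k) (d t))) (lay blk (d k) (d t)))
    {r : ℕ} (hrw : r ≤ w ^ 2) (hr : I.card = r) (f : Fin r → Fin n) (hf : ∀ j, f j ∈ I) (Rw : Fin r → Fin w × Fin w)
    (hdet : (Matrix.of fun i j =>
      pderiv (f j) (iprod M (d 0) (d (m + 2)) (Rw i).1 (Rw i).2)).det ≠ 0) :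
    Psi φ μ (C + (r * s' + (2 * r + 1) * (s + q))) (Matrix.of fun i j =>
      pderiv (f j) (iprod M (d 0) (d (m + 2)) (Rw i).1 (Rw i).2)).det ≠ 0 := by
  classical
  obtain ⟨v0, hv0I, hv0⟩ := hIm
  have hmN : m < N := by omega
  have hm1N : m + 1 < N := by omega
  have hd0 : d 0 ≤ d m := hd.mono (Nat.zero_le m) (by omega)
  have hdm : d m ≤ d (m + 1) := (hd.lt m hmN).le
  have hdm1 : d (m + 1) ≤ d (m + 2) := (hd.lt (m + 1) hm1N).le
  -- the variables of `I` in the first blocks and in the block `m`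
  have hcard : (I.filter fun v => blk v < d m).card + (I.filter fun v => ¬ blk v < d m).card = r := by
    rw [← hr]
    exact Finset.card_filter_add_card_filter_not _
  have hpos : 1 ≤ (I.filter fun v => ¬ blk v < d m).card :=
    Finset.card_pos.2 ⟨v0, Finset.mem_filter.2 ⟨hv0I, by
      have := hv0.1
      omega⟩⟩
  have hI2 : ∀ v ∈ I.filter (fun v => ¬ blk v < d m), v ∈ lay blk (d m) (d (m + 1)) := by
    intro v hv
    rw [Finset.mem_filter] at hv
    exact ⟨not_lt.1 hv.2, (hI v hv.1).2⟩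
  -- the coverings
  have hloc : ∀ l < N, ∀ J : Finset (Fin n), J ⊆ I → (∀ v ∈ J, v ∈ lay blk (d l) (d (l + 1))) →
      Cov φ μ C ((J.card + 1) * (s + q)) (ents (iprod M (d l) (d (l + 1))) ∪
        dents J (iprod M (d l) (d (l + 1)))) (lay blk (d l) (d (l + 1))) := by
    intro l hl J hJ hJb
    have hJc : J.card ≤ w ^ 2 := (Finset.card_le_card hJ).trans (hr.le.trans hrw)
    exact (loc hM hq h (hd.lt l hl) (hd.min l hl) J hJc hJb).mono hcC le_rfl subset_rfl subset_rfl
  have c1 := pieces hM hd I (fun v hv => (hI v hv).1) hloc (m := m) (by omega) hrun m le_rfl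
  have c2 := hloc m hmN (I.filter fun v => ¬ blk v < d m) (Finset.filter_subset _ _) hI2
  have c3 := hloc (m + 1) hm1N ∅ (Finset.empty_subset _) (fun v hv => absurd hv (Finset.notMem_empty v))
  have c12 := c1.union c2 (fun v hv hv' => absurd hv'.2 (not_lt.2 hv.1))
  have c123 := c12.union c3 (fun v hv hv' => by
    have h1 : d (m + 1) ≤ blk v := hv.1
    rcases hv' with h2 | h2
    · have h3 : blk v < d m := h2.2
      omega
    · have h3 : blk v < d (m + 1) := h2.2
      omega)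
  have hsz : ((I.filter fun v => blk v < d m).card + 1) * s' +
        2 * (I.filter fun v => blk v < d m).card * (s + q) +
        ((I.filter fun v => ¬ blk v < d m).card + 1) * (s + q) +
        ((∅ : Finset (Fin n)).card + 1) * (s + q) ≤ r * s' + (2 * r + 1) * (s + q) := by
    rw [Finset.card_empty, ← hcard]
    generalize (I.filter fun v => blk v < d m).card = k at *
    generalize (I.filter fun v => ¬ blk v < d m).card = j at *
    have h1 : (k + 1) * s' ≤ (k + j) * s' := Nat.mul_le_mul_right _ (by omega)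
    have h2 : (2 * k + (j + 1) + 1) * (s + q) ≤ (2 * (k + j) + 1) * (s + q) :=
      Nat.mul_le_mul_right _ (by omega)
    have h3 : (2 * k + (j + 1) + 1) * (s + q) =
        2 * k * (s + q) + (j + 1) * (s + q) + (0 + 1) * (s + q) := by ring
    omega
  have hc := c123.mono (le_refl C) hsz subset_rfl subset_rfl
  refine stepA_hit hp hc hdet ?_
  -- the entries are in the subalgebra
  refine det_mem fun i j => ?_
  rw [Matrix.of_apply]
  have hv := hI _ (hf j)
  have hfI := hf j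
  generalize f j = v at hv hfI ⊢
  have hT : iprod M (d 0) (d (m + 2)) = iprod M (d 0) (d m) * iprod M (d m) (d (m + 1)) *
      iprod M (d (m + 1)) (d (m + 2)) := by
    rw [iprod_mul M hd0 hdm, iprod_mul M (hd0.trans hdm) hdm1]
  have hz : dm v (iprod M (d (m + 1)) (d (m + 2))) = 0 := dm_iprod_eq_zero hM (Or.inl hv.2)
  have hdT : dm v (iprod M (d 0) (d (m + 2))) =
      (dm v (iprod M (d 0) (d m)) * iprod M (d m) (d (m + 1)) +
        iprod M (d 0) (d m) * dm v (iprod M (d m) (d (m + 1)))) *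
      iprod M (d (m + 1)) (d (m + 2)) := by
    rw [hT, dm_mul, dm_mul, hz, Matrix.mul_zero, add_zero]
  have he : pderiv v (iprod M (d 0) (d (m + 2)) (Rw i).1 (Rw i).2) =
      dm v (iprod M (d 0) (d (m + 2))) (Rw i).1 (Rw i).2 := rfl
  rw [he, hdT]
  refine ents_mul_mem ?_ ?_ _ _
  · intro i' j'
    rw [Matrix.add_apply]
    refine Subalgebra.add_mem _ (ents_mul_mem ?_ ?_ _ _) (ents_mul_mem ?_ ?_ _ _)
    · intro i1 j1
      by_cases hb : blk v < d m
      · exact Algebra.subset_adjoin (Or.inl (Or.inl (Or.inr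
          ⟨v, Finset.mem_filter.2 ⟨hfI, hb⟩, i1, j1, rfl⟩)))
      · rw [dm_iprod_eq_zero hM (Or.inr (not_lt.1 hb))]
        exact Subalgebra.zero_mem _
    · intro i1 j1
      exact Algebra.subset_adjoin (Or.inl (Or.inr (Or.inl ⟨i1, j1, rfl⟩)))
    · intro i1 j1
      exact Algebra.subset_adjoin (Or.inl (Or.inl (Or.inl ⟨i1, j1, rfl⟩)))
    · intro i1 j1
      by_cases hb : blk v < d m
      · rw [dm_iprod_eq_zero hM (Or.inl hb)]
        exact Subalgebra.zero_mem _
      · exact Algebra.subset_adjoin (Or.inl (Or.inr (Or.inr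
          ⟨v, Finset.mem_filter.2 ⟨hfI, hb⟩, i1, j1, rfl⟩)))
  · intro i1 j1
    exact Algebra.subset_adjoin (Or.inr (Or.inl ⟨i1, j1, rfl⟩))

end Pool.Agent.CWA
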